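import Pool.Agent.Helper70_rk3.FamC

/-!
# Rank-one motives in the tensor category generated by motives of CM type

Let `V 1, …, V N` be polarised motives of CM type, of any weights, over an algebraically closed subfield
of the complex numbers, under an arithmetic condition on the Hodge types of the eigenlines. Then every
rank-one motive in the tensor category generated by the `V i`, on an arbitrary variety, is a Tate
motive.
-/

open CategoryTheory AlgebraicGeometry

universe u

namespace Pool.Agent.Results.MP_de1512_nt.CMGenerated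

open Pool.Agent.H914 Pool.Agent.H914.VarClass Pool.Agent.H914.VarClass.Obj
  Pool.Agent.H914.WeilCohomology Pool.Agent.Y121.AHS Pool.Agent.Helper70Rk

/-- Rank-one motives which are generated by polarised motives of CM type. -/
theorem result {k : Type u} [Field k] {𝒱 : VarClass k} {ops : CycleOps 𝒱} (T : HodgeTheory ops)
    {N : ℕ} {X : Fin N → 𝒱.Obj} {w : Fin N → ℕ} {π P Q f : ∀ i, ((X i).prod (X i)).Cycles}
    {R : Fin N → Finset ℂ} {e : Fin N → ℂ → ℤ} (hV : ∀ i, IsPolMotive T (w i) (π i) (P i) (Q i))
    (hf : ∀ i, IsCMMotive T (π i) (f i) (R i) (e i))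
    (hR : (Indep R e ∧ ∀ i, GoodEigs (R i) ∧ SameParity (R i) (e i)) ∨ OddSymF R e)
    {Y : 𝒱.Obj} (z : (Y.prod Y).Cycles) (hz : IsRkOne T Y z) (hgen : IsGenBy T Y z π) :
    IsTateMotive T Y z :=
  main_fam hV hf hR hz hgen

end Pool.Agent.Results.MP_de1512_nt.CMGenerated
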