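import Pool.Agent.Helper70_rk1.Bridge2

/-!
# Rank-one motives of CM type are Tate motives

Let `A` be an abelian variety with complex multiplication over an algebraically closed subfield of
the complex numbers, under an arithmetic condition on the CM type. Then every rank-one motive which is
a direct factor of the motive of a power of `A`, up to Tate twists, is a Tate motive.
-/

open CategoryTheory AlgebraicGeometry

universe u

namespace Pool.Agent.Results.MP_de1512_nt.CMRankOne

open Pool.Agent.H914 Pool.Agent.H914.VarClass Pool.Agent.H914.VarClass.Obj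
  Pool.Agent.H914.WeilCohomology Pool.Agent.Y121.AHS Pool.Agent.Helper70Rk
open Pool.Agent.Y133.Half (pw)

/-- Rank-one direct factors of the motives of the powers of abelian varieties of CM type. -/
theorem result {k : Type u} [Field k] {𝒱 : VarClass k} {ops : CycleOps 𝒱} (T : HodgeTheory ops)
    {A : 𝒱.Obj} {m : A.prod A ⟶ A} (hA : IsAbVar T m) (f : A ⟶ A) (R : Finset ℂ)
    (hR : IsCM T f R) (hf : GoodField A.dim R ∨ OddAnnihilated R (holo T f))
    {Y : 𝒱.Obj} (z : (Y.prod Y).Cycles) (hz : IsRkOne T Y z) (n : ℕ)
    (hfac : IsFactorOf T Y z (pw A n)) : IsTateMotive T Y z :=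
  main_tate hA hR hf hz n hfac

end Pool.Agent.Results.MP_de1512_nt.CMRankOne
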